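import Pool.Agent.Helper20.FR.Main

/-!
# MP_3c0690_nt: rationality of `w_n` and `λ_n` for hyperquadratic power series

`K = F_q((1/T))` is `LaurentSeries k` (`k` a finite field) in the variable `X = 1/T`.
-/

open Polynomial

namespace Pool.Agent.Results.MP_3c0690_nt.Hyperquadratic

/-- the embedding `k[T] → k((1/T))`, `T ↦ X⁻¹` -/
noncomputable def embT {k : Type*} [Field k] : k[X] →+* LaurentSeries k :=
  Polynomial.eval₂RingHom (HahnSeries.C) (HahnSeries.single (-1 : ℤ) (1 : k))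

/-- the absolute value `|z| = q ^ (deg z)`, `q = #k`, `|0| = 0` -/
noncomputable def absK {k : Type*} [Field k] (z : LaurentSeries k) : ℝ :=
  open Classical in if z = 0 then 0 else (Nat.card k : ℝ) ^ (-z.order)

/-- the height of a polynomial over `k[T]`: the maximum of the absolute values of the coefficients -/
noncomputable def heightPoly {k : Type*} [Field k] (P : k[X][X]) : ℝ := ⨆ i : ℕ, absK (embT (P.coeff i))

/-- the height of a vector over `k[T]` -/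
noncomputable def heightVec {k : Type*} [Field k] {n : ℕ} (x : Fin (n + 1) → k[X]) : ℝ :=
  ⨆ i, absK (embT (x i))

/-- `w_n(ξ)`: the supremum of the real `w` such that `0 < |P(ξ)| ≤ H(P)^(-w)` for infinitely many
`P ∈ k[T][X]` of degree at most `n` -/
noncomputable def wn {k : Type*} [Field k] (n : ℕ) (ξ : LaurentSeries k) : EReal :=
  sSup {e : EReal | ∃ w : ℝ, e = (w : EReal) ∧ {P : k[X][X] | P.natDegree ≤ n ∧
    0 < absK (P.eval₂ embT ξ) ∧ absK (P.eval₂ embT ξ) ≤ heightPoly P ^ (-w)}.Infinite}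

/-- `λ_n(ξ)`: the supremum of the real `w` such that `0 < max_{1 ≤ i ≤ n} |x₀ ξ^i - x_i| ≤ H(x)^(-w)`
for infinitely many `x ∈ k[T]^(n+1)` -/
noncomputable def lam {k : Type*} [Field k] (n : ℕ) (ξ : LaurentSeries k) : EReal :=
  sSup {e : EReal | ∃ w : ℝ, e = (w : EReal) ∧ {x : Fin (n + 1) → k[X] |
    0 < (⨆ i : Fin n, absK (embT (x 0) * ξ ^ ((i : ℕ) + 1) - embT (x i.succ))) ∧
    (⨆ i : Fin n, absK (embT (x 0) * ξ ^ ((i : ℕ) + 1) - embT (x i.succ))) ≤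
      heightVec x ^ (-w)}.Infinite}

/-- `ξ = (A ξ^r + B) / (C ξ^r + D)` with `A, B, C, D ∈ k[T]`, `A D - B C ≠ 0` -/
def Moebius {k : Type*} [Field k] (r : ℕ) (ξ : LaurentSeries k) : Prop :=
  ∃ A B C D : k[X], A * D - B * C ≠ 0 ∧
    ξ * (embT C * ξ ^ r + embT D) = embT A * ξ ^ r + embT B

/-- `ξ` is not in `k(T)` -/
def Irr {k : Type*} [Field k] (ξ : LaurentSeries k) : Prop :=
  ∀ a b : k[X], b ≠ 0 → embT b * ξ ≠ embT a

theorem result {k : Type*} [Field k] [Finite k] (p : ℕ) [Fact p.Prime] [CharP k p]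
    (ξ : LaurentSeries k) (hirr : Irr ξ)
    (h : (∃ s : ℕ, 1 ≤ s ∧ Moebius (p ^ s) ξ) ∨
      ∃ f : k[X][X], f ≠ 0 ∧ f.natDegree ≤ 3 ∧ f.eval₂ embT ξ = 0)
    (n : ℕ) (hn : 1 ≤ n) :
    (∃ ρ : ℚ, wn n ξ = ((ρ : ℝ) : EReal)) ∧ ∃ ρ : ℚ, lam n ξ = ((ρ : ℝ) : EReal) := by
  have key : ∃ s : ℕ, 1 ≤ s ∧ Pool.Agent.Helper20.FR.HQ (p ^ s) ξ := by
    rcases h with ⟨s, hs, hM⟩ | ⟨f, hf, hd, hfe⟩
    · exact ⟨s, hs, hM⟩
    · exact ⟨1, le_rfl, Pool.Agent.Helper20.FR.low_deg p 1 ξ hirr f hf hfe hd⟩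
  obtain ⟨s, hs, hHQ⟩ := key
  exact Pool.Agent.Helper20.FR.main_thm s hs ξ hirr hHQ n hn

end Pool.Agent.Results.MP_3c0690_nt.Hyperquadratic
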